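import Pool.Agent.Q21.CO.Main

/-!
# Characters of degree prime to `p` and self-centralising cosets

The coset correspondence of helper21 (`Pool.Agent.Q21.CO`) for an arbitrary subgroup `H` that
contains a Sylow `p`-subgroup `P` and the centralisers of the elements of `P ∩ yN`.
-/

open scoped BigOperators Classical
open Pool.Agent.Helper884 Representation Pool.Agent.H254R3.IN Pool.Agent.Y62 Pool.Agent.Q21.CO

noncomputable section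

namespace Pool.Agent.Q1.MK

/-- the irreducible characters of degree prime to `p` -/
def IrrP (p : ℕ) (G : Type) [Group G] : Set (G → ℂ) :=
  {χ | IsIrr χ ∧ ∃ n : ℕ, (n : ℂ) = χ 1 ∧ ¬ p ∣ n}

/-- There is a valuation subring of `ℂ` whose maximal ideal contains `p`. -/
theorem exists_place (p : ℕ) [hp : Fact p.Prime] :
    ∃ O : ValuationSubring ℂ, (p : ℂ) ∈ O.nonunits := by
  let A : Subring ℂ := (Int.castRingHom ℂ).range
  have hpA : (p : ℂ) ∈ A := ⟨p, by simp⟩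
  let I : Ideal A := Ideal.span {⟨(p : ℂ), hpA⟩}
  have hI : I ≠ ⊤ := by
    intro h
    have h1 : (1 : A) ∈ I := by rw [h]; trivial
    obtain ⟨⟨_, n, rfl⟩, hn⟩ := Ideal.mem_span_singleton'.mp h1
    have h2 := congrArg Subtype.val hn
    have h3 : (n : ℂ) * (p : ℂ) = 1 := h2
    have h4 : n * (p : ℤ) = 1 := by exact_mod_cast h3
    have h5 : (p : ℤ) ∣ 1 := ⟨n, by rw [mul_comm]; exact h4.symm⟩
    have h6 : p ∣ 1 := by exact_mod_cast h5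
    exact hp.out.one_lt.ne' (Nat.dvd_one.mp h6)
  obtain ⟨B, -, hB⟩ := I.image_subset_nonunits_valuationSubring hI
  exact ⟨B, hB ⟨_, Ideal.subset_span rfl, rfl⟩⟩

lemma val_one {K : Type} [Group K] [Fintype K] {O : ValuationSubring ℂ} {p : ℕ}
    [hp : Fact p.Prime] (hpO : (p : ℂ) ∈ O.nonunits) {χ : K → ℂ} (hχ : IsIrr χ) {y : K} {k : ℕ}
    (hk : orderOf y = p ^ k) : red O (χ y) = red O (χ 1) := by
  have h := val_red hpO hχ hk (Commute.one_right y) 1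
  rwa [pow_one, mul_one] at h

lemma irrP_iff {K : Type} [Group K] [Fintype K] {O : ValuationSubring ℂ} {p : ℕ}
    [hp : Fact p.Prime] (hpO : (p : ℂ) ∈ O.nonunits) {χ : K → ℂ} :
    χ ∈ IrrP p K ↔ IsIrr χ ∧ red O (χ 1) ≠ 0 := by
  have := charP_RF hpO
  constructor
  · rintro ⟨h1, n, hn, hpn⟩
    refine ⟨h1, ?_⟩
    rw [← hn, red_natCast]
    exact fun h => hpn ((CharP.cast_eq_zero_iff (RF O) p n).mp h)
  · rintro ⟨h1, h2⟩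
    obtain ⟨n, -, hn⟩ := h1.deg
    refine ⟨h1, n, hn, fun h => h2 ?_⟩
    rw [← hn, red_natCast]
    exact (CharP.cast_eq_zero_iff (RF O) p n).mpr h

variable {G : Type} [Group G] [Fintype G] {p : ℕ} [hp : Fact p.Prime] {N H : Subgroup G} {y : G}
  {P : Sylow p G}

/-- the normaliser of the Sylow subgroup is contained in `H` -/
theorem norm_le (d : Dat p N y H P) : Subgroup.normalizer ((P : Subgroup G) : Set G) ≤ H := by
  obtain ⟨l, hl⟩ := d.exists_lin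
  obtain ⟨q, s⟩ := d.setup hl
  intro g hg
  have h1 : g⁻¹ * y * g ∈ (P : Subgroup G) := by
    have h2 := (Subgroup.mem_normalizer_iff.mp (Subgroup.inv_mem _ hg) y).mp d.hyP
    rwa [inv_inv] at h2
  exact s.hTI.ti g y (d.hPH d.hyP) rfl (d.hPH h1)

lemma rel_deg {O : ValuationSubring ℂ} (hpO : (p : ℂ) ∈ O.nonunits) (d : Dat p N y H P)
    {χ : G → ℂ} {ψ : H → ℂ} (hχ : IsIrr χ) (hψ : IsIrr ψ) {ε : ℤ}
    (h : χ y = ε * ψ ⟨y, d.hPH d.hyP⟩) : red O (χ 1) = ε * red O (ψ 1) := by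
  obtain ⟨k, hk⟩ := d.ord_y
  have h1 := val_one hpO hχ hk
  have h2 : orderOf (⟨y, d.hPH d.hyP⟩ : H) = p ^ k := by rw [Subgroup.orderOf_mk, hk]
  have h3 := val_one hpO hψ h2
  rw [← h1, h, red_mul (intCast_mem' ε) (hψ.val_mem O _), h3, red_intCast]

lemma sign_ne {O : ValuationSubring ℂ} {ε : ℤ} (hε : ε = 1 ∨ ε = -1) : ((ε : ℤ) : RF O) ≠ 0 := by
  rcases hε with h | h <;> rw [h] <;> simp

omit hp in
lemma sign_of {ε : ℤ} (hε : ε = 1 ∨ (ε = -1 ∧ p ≠ 2)) : ε = 1 ∨ ε = -1 := by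
  rcases hε with h | h
  · exact Or.inl h
  · exact Or.inr h.1

lemma rel_right (d : Dat p N y H P) {l : G →* ℂˣ} {q : ℕ} (s : Setup p q l (l y) H) {χ : G → ℂ}
    (hχ : χ ∈ IrrP p G) : ∃ ψ ∈ IrrP p H, Rel p l (l y) H χ ψ := by
  obtain ⟨O, hpO⟩ := exists_place p
  obtain ⟨h1, h2⟩ := (irrP_iff hpO).mp hχ
  obtain ⟨k, hk⟩ := d.ord_y
  have h3 : χ y ≠ 0 := by
    intro h4
    apply h2
    rw [← val_one hpO h1 hk, h4, red_zero]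
  obtain ⟨ψ, hψ, hr⟩ := s.right h1 rfl h3
  refine ⟨ψ, (irrP_iff hpO).mpr ⟨hψ, fun h4 => h2 ?_⟩, hr⟩
  obtain ⟨ε, hε, hval⟩ := hr
  rw [rel_deg hpO d h1 hψ (hval ⟨y, d.hPH d.hyP⟩ rfl), h4, mul_zero]

lemma rel_left (d : Dat p N y H P) {l : G →* ℂˣ} {q : ℕ} (s : Setup p q l (l y) H) {ψ : H → ℂ}
    (hψ : ψ ∈ IrrP p H) : ∃ χ ∈ IrrP p G, Rel p l (l y) H χ ψ := by
  obtain ⟨O, hpO⟩ := exists_place p
  obtain ⟨h1, h2⟩ := (irrP_iff hpO).mp hψ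
  obtain ⟨k, hk⟩ := d.ord_y
  have h2' : orderOf (⟨y, d.hPH d.hyP⟩ : H) = p ^ k := by rw [Subgroup.orderOf_mk, hk]
  have h3 : ψ ⟨y, d.hPH d.hyP⟩ ≠ 0 := by
    intro h4
    apply h2
    rw [← val_one hpO h1 h2', h4, red_zero]
  obtain ⟨χ, hχ, hr⟩ := s.left h1 (h := ⟨y, d.hPH d.hyP⟩) rfl h3
  refine ⟨χ, (irrP_iff hpO).mpr ⟨hχ, fun h4 => h2 ?_⟩, hr⟩
  obtain ⟨ε, hε, hval⟩ := hr
  have h5 := rel_deg hpO d hχ h1 (hval ⟨y, d.hPH d.hyP⟩ rfl)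
  rw [h4] at h5
  exact (mul_eq_zero.mp h5.symm).resolve_left (sign_ne (sign_of hε))

lemma val_ne (d : Dat p N y H P) {χ : G → ℂ} (hχ : χ ∈ IrrP p G) : χ y ≠ 0 := by
  obtain ⟨O, hpO⟩ := exists_place p
  obtain ⟨h1, h2⟩ := (irrP_iff hpO).mp hχ
  obtain ⟨k, hk⟩ := d.ord_y
  intro h4
  apply h2
  rw [← val_one hpO h1 hk, h4, red_zero]

lemma val_ne' (d : Dat p N y H P) {ψ : H → ℂ} (hψ : ψ ∈ IrrP p H) :
    ψ ⟨y, d.hPH d.hyP⟩ ≠ 0 := by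
  obtain ⟨O, hpO⟩ := exists_place p
  obtain ⟨h1, h2⟩ := (irrP_iff hpO).mp hψ
  obtain ⟨k, hk⟩ := d.ord_y
  have h2' : orderOf (⟨y, d.hPH d.hyP⟩ : H) = p ^ k := by rw [Subgroup.orderOf_mk, hk]
  intro h4
  apply h2
  rw [← val_one hpO h1 h2', h4, red_zero]

theorem deg_cong (d : Dat p N y H P) {χ : G → ℂ} {ψ : H → ℂ} (hχ : IsIrr χ) (hψ : IsIrr ψ) {ε : ℤ}
    (h : χ y = ε * ψ ⟨y, d.hPH d.hyP⟩) {n m : ℕ} (hn : (n : ℂ) = χ 1) (hm : (m : ℂ) = ψ 1) :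
    (n : ℤ) ≡ ε * m [ZMOD p] := by
  obtain ⟨O, hpO⟩ := exists_place p
  have := charP_RF hpO
  have h1 := rel_deg hpO d hχ hψ h
  rw [← hn, ← hm, red_natCast, red_natCast] at h1
  rw [← CharP.intCast_eq_intCast (RF O) p]
  push_cast
  exact h1

/-- **The correspondence.** -/
theorem corr (d : Dat p N y H P) : ∃ f : IrrP p G ≃ IrrP p H,
    (∀ χ : IrrP p G, ∃ ε : ℤ, (ε = 1 ∨ ε = -1) ∧
      (∀ k : H, y⁻¹ * (k : G) ∈ N → (χ : G → ℂ) k = ε * (f χ : H → ℂ) k) ∧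
      ∀ n m : ℕ, (n : ℂ) = (χ : G → ℂ) 1 → (m : ℂ) = (f χ : H → ℂ) 1 →
        (n : ℤ) ≡ ε * m [ZMOD p]) ∧
    (∀ (σ : ℂ ≃+* ℂ) (χ : IrrP p G), ∃ h : (fun g => σ ((χ : G → ℂ) g)) ∈ IrrP p G,
      (f ⟨fun g => σ ((χ : G → ℂ) g), h⟩ : H → ℂ) = fun k => σ ((f χ : H → ℂ) k)) ∧
    (∀ (α : G ≃* G), (∀ g, α g ∈ N ↔ g ∈ N) → y⁻¹ * α y ∈ N → ∀ hH : (∀ g, α g ∈ H ↔ g ∈ H),
      ∀ χ : IrrP p G, ∃ h : (fun g => (χ : G → ℂ) (α g)) ∈ IrrP p G,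
        (f ⟨fun g => (χ : G → ℂ) (α g), h⟩ : H → ℂ) =
          fun k : H => (f χ : H → ℂ) ⟨α k, (hH k).2 k.2⟩) ∧
    ∀ (σ : ℂ ≃+* ℂ) (χ : IrrP p G),
      ((∀ k : H, σ ((χ : G → ℂ) k) = (χ : G → ℂ) k) ↔
        ∀ g : G, σ ((χ : G → ℂ) g) = (χ : G → ℂ) g) ∧
      ((∀ k : H, σ ((f χ : H → ℂ) k) = (f χ : H → ℂ) k) ↔
        ∀ g : G, σ ((χ : G → ℂ) g) = (χ : G → ℂ) g) := by
  obtain ⟨l, hl⟩ := d.exists_lin
  obtain ⟨q, s⟩ := d.setup hl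
  have hly : ∀ g : G, y⁻¹ * g ∈ N → l g = l y := fun g hg => (Dat.l_iff hl g).mpr hg
  have hex : ∀ χ : IrrP p G, ∃ ψ : IrrP p H, Rel p l (l y) H (χ : G → ℂ) (ψ : H → ℂ) := by
    intro χ
    obtain ⟨ψ, h1, h2⟩ := rel_right d s χ.2
    exact ⟨⟨ψ, h1⟩, h2⟩
  choose F hF using hex
  have huR : ∀ {χ : G → ℂ} {ψ ψ' : H → ℂ}, ψ ∈ IrrP p H → ψ' ∈ IrrP p H →
      Rel p l (l y) H χ ψ → Rel p l (l y) H χ ψ' → ψ = ψ' := fun {χ ψ ψ'} h1 h2 h3 h4 =>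
    s.right_unique h1.1 h2.1 h3 h4 (k := ⟨y, d.hPH d.hyP⟩) rfl (val_ne' d h1)
  have huL : ∀ {χ χ' : G → ℂ} {ψ : H → ℂ}, χ ∈ IrrP p G → χ' ∈ IrrP p G →
      Rel p l (l y) H χ ψ → Rel p l (l y) H χ' ψ → χ = χ' := fun {χ χ' ψ} h1 h2 h3 h4 =>
    s.left_unique h1.1 h2.1 h3 h4 (g := y) rfl (val_ne d h1)
  have hbij : Function.Bijective F := by
    constructor
    · intro χ χ' h
      have h6 := hF χ
      rw [h] at h6
      exact Subtype.ext (huL χ.2 χ'.2 h6 (hF χ'))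
    · intro ψ
      obtain ⟨χ, h6, h8⟩ := rel_left d s ψ.2
      exact ⟨⟨χ, h6⟩, Subtype.ext (huR (F _).2 ψ.2 (hF ⟨χ, h6⟩) h8)⟩
  have hgal : ∀ {K : Type} [Group K] [Finite K] (σ : ℂ ≃+* ℂ) {χ : K → ℂ}, χ ∈ IrrP p K →
      (fun g => σ (χ g)) ∈ IrrP p K := by
    intro K _ _ σ χ hχ
    refine ⟨Pool.Agent.Y824.GA.S_IRR _ σ _ hχ.1, ?_⟩
    obtain ⟨n, hn, hn'⟩ := hχ.2
    refine ⟨n, ?_, hn'⟩
    change (n : ℂ) = σ (χ 1)
    rw [← hn, map_natCast]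
  have hG : ∀ (σ : ℂ ≃+* ℂ) (χ : IrrP p G), ∃ h : (fun g => σ ((χ : G → ℂ) g)) ∈ IrrP p G,
      (F ⟨fun g => σ ((χ : G → ℂ) g), h⟩ : H → ℂ) = fun k => σ ((F χ : H → ℂ) k) := by
    intro σ χ
    refine ⟨hgal σ χ.2, ?_⟩
    exact huR (F _).2 (hgal σ (F χ).2) (hF ⟨_, hgal σ χ.2⟩) ((hF χ).gal σ)
  refine ⟨Equiv.ofBijective F hbij, ?_, hG, ?_, ?_⟩
  · intro χ
    obtain ⟨ε, hε, hval⟩ := hF χ
    refine ⟨ε, sign_of hε, fun k hk => hval k (hly k hk), fun n m hn hm => ?_⟩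
    exact deg_cong d χ.2.1 (F χ).2.1 (hval ⟨y, d.hPH d.hyP⟩ rfl) hn hm
  · intro α hαN hαy hH χ
    have hα1 : (fun g => (χ : G → ℂ) (α g)) ∈ IrrP p G := by
      refine ⟨irr_comp χ.2.1 α, ?_⟩
      obtain ⟨n, hn, hn'⟩ := χ.2.2
      refine ⟨n, ?_, hn'⟩
      change (n : ℂ) = (χ : G → ℂ) (α 1)
      rw [hn, map_one]
    refine ⟨hα1, ?_⟩
    -- the automorphism of `H`
    let β : H ≃* H :=
      { toFun := fun k => ⟨α k, (hH k).2 k.2⟩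
        invFun := fun k => ⟨α.symm k, by
          rw [← hH, MulEquiv.apply_symm_apply]
          exact k.2⟩
        left_inv := fun k => Subtype.ext (α.symm_apply_apply _)
        right_inv := fun k => Subtype.ext (α.apply_symm_apply _)
        map_mul' := fun a b => Subtype.ext (map_mul α _ _) }
    have hβ : (fun k => (F χ : H → ℂ) (β k)) ∈ IrrP p H := by
      refine ⟨irr_comp (F χ).2.1 β, ?_⟩
      obtain ⟨n, hn, hn'⟩ := (F χ).2.2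
      refine ⟨n, ?_, hn'⟩
      change (n : ℂ) = (F χ : H → ℂ) (β 1)
      rw [hn, map_one]
    have hlα : ∀ g, l g = l y → l (α g) = l y := by
      intro g hg
      have h1 : y⁻¹ * g ∈ N := (Dat.l_iff hl g).mp hg
      have h2 : (α y)⁻¹ * α g ∈ N := by
        have := (hαN (y⁻¹ * g)).mpr h1
        rwa [map_mul, map_inv] at this
      refine (Dat.l_iff hl _).mpr ?_
      have h3 := N.mul_mem hαy h2
      have e : y⁻¹ * α y * ((α y)⁻¹ * α g) = y⁻¹ * α g := by group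
      rwa [e] at h3
    refine huR (F _).2 hβ (hF ⟨_, hα1⟩) ?_
    obtain ⟨ε, hε, hval⟩ := hF χ
    exact ⟨ε, hε, fun k hk => hval (β k) (hlα k hk)⟩
  · intro σ χ
    obtain ⟨h1, h2⟩ := hG σ χ
    refine ⟨⟨fun h6 => ?_, fun h6 k => h6 k⟩, ⟨fun h6 => ?_, fun h6 => ?_⟩⟩
    · obtain ⟨ε, hε, hval⟩ := hF χ
      have h7 := huL χ.2 h1 (ψ := (F χ : H → ℂ)) ⟨ε, hε, hval⟩ ⟨ε, hε, fun k hk => by
        change σ ((χ : G → ℂ) k) = _
        rw [h6 k, hval k hk]⟩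
      exact fun g => (congrFun h7 g).symm
    · have h8 : (fun k => σ ((F χ : H → ℂ) k)) = (F χ : H → ℂ) := funext h6
      have h9 := (hF χ).gal σ
      rw [h8] at h9
      have h7 := huL χ.2 h1 (hF χ) h9
      exact fun g => (congrFun h7 g).symm
    · have h8 : (fun g => σ ((χ : G → ℂ) g)) = (χ : G → ℂ) := funext h6
      have h9 := (hF χ).gal σ
      rw [h8] at h9
      have h7 := huR (F χ).2 (hgal σ (F χ).2) (hF χ) h9
      exact fun k => (congrFun h7 k).symm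

end Pool.Agent.Q1.MK
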