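import Pool.Agent.Q1.MK.Mck

/-!
# Transport of the characters of degree prime to `p`
-/

open scoped BigOperators Classical
open Pool.Agent.H254R3.IN Pool.Agent.Y62 Pool.Agent.Q21.CO

noncomputable section

namespace Pool.Agent.Q1.MK

variable {p : ℕ}

lemma irrP_comp {K L : Type} [Group K] [Group L] (e : K ≃* L) {χ : L → ℂ} (h : χ ∈ IrrP p L) :
    (fun k => χ (e k)) ∈ IrrP p K := by
  refine ⟨irr_comp h.1 e, ?_⟩
  obtain ⟨n, hn, hn'⟩ := h.2
  refine ⟨n, ?_, hn'⟩
  change (n : ℂ) = χ (e 1)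
  rw [hn, map_one]

/-- the bijection given by an isomorphism -/
def trn {K L : Type} [Group K] [Group L] (e : K ≃* L) : IrrP p K ≃ IrrP p L where
  toFun χ := ⟨fun k => (χ : K → ℂ) (e.symm k), irrP_comp e.symm χ.2⟩
  invFun χ := ⟨fun k => (χ : L → ℂ) (e k), irrP_comp e χ.2⟩
  left_inv χ := Subtype.ext (funext fun k => by
    change (χ : K → ℂ) (e.symm (e k)) = _
    rw [e.symm_apply_apply])
  right_inv χ := Subtype.ext (funext fun k => by
    change (χ : L → ℂ) (e (e.symm k)) = _
    rw [e.apply_symm_apply])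

lemma trn_one {K L : Type} [Group K] [Group L] (e : K ≃* L) (χ : IrrP p K) :
    (trn e χ : L → ℂ) 1 = (χ : K → ℂ) 1 := by
  change (χ : K → ℂ) (e.symm 1) = _
  rw [map_one]

/-- the normalisers of the Sylow subgroup in `G` and in `H` -/
def nrm {G : Type} [Group G] [Finite G] {H : Subgroup G} (P : Sylow p G)
    (hPH : (P : Subgroup G) ≤ H)
    (hN : Subgroup.normalizer ((P : Subgroup G) : Set G) ≤ H) :
    Subgroup.normalizer (((P.subtype hPH : Sylow p H) : Subgroup H) : Set H) ≃*
      Subgroup.normalizer ((P : Subgroup G) : Set G) :=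
  (MulEquiv.subgroupCongr (by
    rw [Sylow.coe_subtype]
    exact (Subgroup.subgroupOf_normalizer_eq hPH).symm)).trans
    (Subgroup.subgroupOfEquivOfLe hN)

end Pool.Agent.Q1.MK
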